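import Mathlib

set_option autoImplicit false
set_option linter.unusedSectionVars false

namespace Pool.Agent.H.MP_da28a5_co

open Set Submodule Matroid

section mat
variable {α : Type} {N : Matroid α}

def HH (N : Matroid α) (a b : α) : Prop :=
  ∃ J, N.IsBase (insert a J) ∧ a ∉ N.closure J ∧ b ∉ N.closure J

structure Good (N : Matroid α) : Prop where
  g : N.E = univ
  nl : ∀ x, x ∉ N.closure ∅

lemma Good.mem (h : Good N) (x : α) : x ∈ N.E := h.g ▸ mem_univ x
lemma Good.cl (h : Good N) {x : α} {X : Set α} (hx : x ∈ X) : x ∈ N.closure X :=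
  N.mem_closure_of_mem' hx (h.mem x)
lemma Good.ins (h : Good N) {x : α} {I : Set α} (hI : N.Indep I) (hx : x ∉ N.closure I) :
    N.Indep (insert x I) := hI.insert_indep_iff.2 (Or.inl ⟨h.mem x, hx⟩)
lemma Good.one (h : Good N) (x : α) : N.Indep {x} := by
  simpa using h.ins N.empty_indep (h.nl x)
lemma Good.two (h : Good N) {a b : α} (hb : b ∉ N.closure {a}) : N.Indep {a, b} := by
  rw [pair_comm]; exact h.ins (h.one a) hb
lemma Good.par (h : Good N) {a b : α} (hb : b ∈ N.closure {a}) : a ∈ N.closure {b} := by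
  simpa using mem_closure_insert (h.nl b) (f := a) (by simpa using hb)
lemma tr {x : α} {X Y : Set α} (hx : x ∈ N.closure X) (h : X ⊆ N.closure Y) : x ∈ N.closure Y :=
  closure_subset_closure_of_subset_closure h hx
lemma tr1 {x y : α} {Y : Set α} (hx : x ∈ N.closure {y}) (h : y ∈ N.closure Y) :
    x ∈ N.closure Y := tr hx (by simpa using h)
lemma tr2 {x y z : α} {Y : Set α} (hx : x ∈ N.closure {y, z}) (h : y ∈ N.closure Y)
    (h' : z ∈ N.closure Y) : x ∈ N.closure Y := tr hx (by rintro _ (rfl | rfl) <;> assumption)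
lemma meet {x : α} {B X Y Z : Set α} (hB : N.Indep B) (hX : X ⊆ B) (hY : Y ⊆ B) (hZ : X ∩ Y ⊆ Z)
    (h1 : x ∈ N.closure X) (h2 : x ∈ N.closure Y) : x ∈ N.closure Z := by
  apply N.closure_subset_closure hZ
  rw [(hB.subset (union_subset hX hY)).closure_inter_eq_inter_closure]; exact ⟨h1, h2⟩

lemma Good.exch (h : Good N) {a b : α} {J : Set α} (h1 : N.IsBase (insert a J))
    (ha : a ∉ N.closure J) (hb : b ∉ N.closure J) : N.IsBase (insert b J) := by
  have e : insert a J \ {a} = J := insert_sdiff_self_of_notMem fun e => ha (h.cl e)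
  have := h1.exchange_base_of_notMem_closure (mem_insert a J) (f := b) (by rwa [e]) (h.mem b)
  rwa [e] at this

lemma Good.symm (h : Good N) {a b : α} : HH N a b → HH N b a :=
  fun ⟨J, h1, ha, hb⟩ => ⟨J, h.exch h1 ha hb, hb, ha⟩

lemma Good.refl (h : Good N) (a : α) : HH N a a := by
  obtain ⟨B, hB, ha⟩ := (h.one a).exists_isBase_superset
  have ha : a ∈ B := ha rfl
  exact ⟨B \ {a}, by simpa [ha] using hB, hB.indep.notMem_closure_sdiff_of_mem ha,
    hB.indep.notMem_closure_sdiff_of_mem ha⟩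

lemma Good.parR (h : Good N) {a b c : α} (h1 : HH N a b) (h2 : c ∈ N.closure {b}) : HH N a c := by
  obtain ⟨J, h1, ha, hb⟩ := h1
  exact ⟨J, h1, ha, fun hc => hb (tr1 (h.par h2) hc)⟩

lemma Good.third (h : Good N) {a b x : α} (hab : b ∉ N.closure {a}) (hx : x ∈ N.closure {a, b})
    (ha : x ∉ N.closure {a}) (hb : x ∉ N.closure {b}) : HH N a b := by
  obtain ⟨B, hB, hs⟩ := (h.two hab).exists_isBase_superset
  have haB : a ∈ B := hs (by simp)
  have hbB : b ∈ B := hs (by simp)
  have hne : a ≠ b := fun e => hab (h.cl (by simp [e]))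
  have h1 : x ∉ N.closure (B \ {b}) := fun e =>
    ha (meet hB.indep hs sdiff_subset (by rintro y ⟨rfl | rfl, hy⟩ <;> simp_all) hx e)
  have h2 : x ∉ N.closure (B \ {a}) := fun e =>
    hb (meet hB.indep hs sdiff_subset (by rintro y ⟨rfl | rfl, hy⟩ <;> simp_all) hx e)
  have b1 := hB.exchange_base_of_notMem_closure hbB h1 (h.mem x)
  have b2 := hB.exchange_base_of_notMem_closure haB h2 (h.mem x)
  have xa : x ≠ a := fun e => ha (h.cl (by simp [e]))
  have xb : x ≠ b := fun e => hb (h.cl (by simp [e]))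
  refine ⟨insert x (B \ {a, b}), ?_, ?_, ?_⟩
  · convert b1 using 1
    ext y; simp only [mem_insert_iff, mem_sdiff, mem_singleton_iff]
    constructor
    · rintro (rfl | rfl | h) <;> tauto
    · tauto
  · have := b1.indep.notMem_closure_sdiff_of_mem (e := a) (Or.inr ⟨haB, hne⟩)
    refine fun e => this (N.closure_subset_closure ?_ e)
    rintro y (rfl | h) <;> simp_all
  · have := b2.indep.notMem_closure_sdiff_of_mem (e := b) (Or.inr ⟨hbB, hne.symm⟩)
    refine fun e => this (N.closure_subset_closure ?_ e)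
    rintro y (rfl | h) <;> simp_all

end mat

variable {K V α : Type} [Field K] [AddCommGroup V] [Module K V] (v : α → V)

def R (x : α) (w : V) : Prop := ∃ c : K, c ≠ 0 ∧ v x = c • w

structure Geo : Prop where
  nz : ∀ x, v x ≠ 0
  sur : ∀ w, w ≠ 0 → ∃ x, R (K := K) v x w
  inj : ∀ x y, R (K := K) v x (v y) → x = y

def Bas (B : Set α) : Prop := LinearIndepOn K v B ∧ span K (v '' B) = ⊤

variable {v} {N : Matroid α}

lemma R.rfl' (x : α) : R (K := K) v x (v x) := ⟨1, one_ne_zero, by simp⟩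
lemma R.mem {x : α} {w : V} (h : R (K := K) v x w) {S : Submodule K V} : v x ∈ S ↔ w ∈ S := by
  obtain ⟨c, hc, h⟩ := h
  rw [h, smul_mem_iff _ hc]
lemma R.smul {x : α} {w : V} (h : R (K := K) v x w) {c : K} (hc : c ≠ 0) :
    R (K := K) v x (c • w) := by
  obtain ⟨d, hd, h⟩ := h
  exact ⟨d / c, div_ne_zero hd hc, by rw [h, smul_smul, div_mul_cancel₀ _ hc]⟩
lemma R.eq (G : Geo (K := K) v) {x y : α} {w : V} (h : R (K := K) v x w) (h' : R (K := K) v y w) :
    x = y := by
  obtain ⟨c, hc, h⟩ := h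
  obtain ⟨d, hd, h'⟩ := h'
  exact G.inj x y ⟨c / d, div_ne_zero hc hd, by rw [h, h', smul_smul, div_mul_cancel₀ _ hd]⟩
lemma R.sp {x : α} {w : V} (h : R (K := K) v x w) {J : Set α} (hx : x ∈ J) :
    w ∈ span K (v '' J) := h.mem.1 (subset_span (mem_image_of_mem _ hx))

structure Wk (v : α → V) (N : Matroid α) : Prop extends Good N, Geo (K := K) v where
  w : ∀ B, N.IsBase B → Bas (K := K) v B

lemma Wk.cl' (h : Wk (K := K) v N) {I : Set α} (hI : N.Indep I) {x : α} {w : V}
    (hx : R (K := K) v x w) (hw : w ∈ span K (v '' I)) : x ∈ N.closure I := by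
  by_contra hn
  obtain ⟨B, hB, hs⟩ := (h.ins hI hn).exists_isBase_superset
  exact ((h.w B hB).1.mono hs).notMem_span_of_insert (fun e => hn (h.cl e)) (hx.mem.2 hw)

lemma Wk.line (h : Wk (K := K) v N) {A B X : α} {a b w : V} (hA : R (K := K) v A a)
    (hB : R (K := K) v B b) (hX : R (K := K) v X w) (s t : K) (e : w = s • a + t • b)
    (hn : B ∉ N.closure {A}) : X ∈ N.closure {A, B} :=
  h.cl' (h.two hn) hX (e ▸ add_mem (smul_mem _ _ (hA.sp (by simp))) (smul_mem _ _ (hB.sp (by simp))))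

lemma Wk.cut (h : Wk (K := K) v N) {a b : α} {J : Set α} (hJ : N.IsBase (insert a J))
    (hab : a ≠ b) : ∃ x, ∃ s : K, R (K := K) v x (s • v a + v b) ∧ x ∈ N.closure J := by
  have h1 : v b ∈ span K (v '' insert a J) := by rw [(h.w _ hJ).2]; trivial
  rw [image_insert_eq, mem_span_insert] at h1
  obtain ⟨s, z, hz, e⟩ := h1
  have hz0 : z ≠ 0 := by
    rintro rfl
    rw [add_zero] at e
    refine hab (h.inj b a ⟨s, ?_, e⟩).symm
    rintro rfl; exact h.nz b (by simpa using e)
  obtain ⟨x, hx⟩ := h.sur z hz0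
  refine ⟨x, -s, by rw [e]; simpa using hx, h.cl' (hJ.indep.subset (subset_insert _ _)) hx hz⟩

lemma Wk.th (h : Wk (K := K) v N) {a b : α} (h1 : HH N a b) (hab : b ∉ N.closure {a}) :
    ∃ x, ∃ s : K, s ≠ 0 ∧ R (K := K) v x (s • v a + v b) ∧ x ∉ N.closure {a} ∧
      x ∉ N.closure {b} := by
  obtain ⟨J, hJ, ha, hb⟩ := h1
  obtain ⟨x, s, h2, h3⟩ := h.cut hJ (b := b) fun e => hab (h.cl (by simp [e]))
  have h4 : x ∉ N.closure {b} := fun e => hb (tr1 (h.par e) h3)
  refine ⟨x, s, ?_, h2, fun e => ha (tr1 (h.par e) h3), h4⟩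
  rintro rfl
  exact h4 (h.cl (h.inj x b (by simpa using h2)))

lemma Wk.trans (h : Wk (K := K) v N) {a b c : α} (h1 : HH N a b) (h2 : HH N b c) : HH N a c := by
  by_cases hab : b ∈ N.closure {a}
  · exact h.symm (h.parR (h.symm h2) (h.par hab))
  by_cases hbc : c ∈ N.closure {b}
  · exact h.parR h1 hbc
  by_cases hac : c ∈ N.closure {a}
  · exact h.parR (h.refl a) hac
  by_cases hc : c ∈ N.closure {a, b}
  · refine h.third hac ?_ hab fun e => hbc (h.par e)
    rw [pair_comm] at hc ⊢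
    exact mem_closure_insert hac hc
  obtain ⟨x, s, hs, x1, x2, x3⟩ := h.th h1 hab
  obtain ⟨y, t, ht, y1, y2, y3⟩ := h.th h2 hbc
  have hI : N.Indep (insert c {a, b}) := h.ins (h.two hab) hc
  have x4 := h.line (R.rfl' a) (R.rfl' b) x1 s 1 (by simp) hab
  have y4 := h.line (R.rfl' b) (R.rfl' c) y1 t 1 (by simp) hbc
  have y5 : y ∉ N.closure {a, b} := fun e => y2 (meet hI (X := {a, b}) (Y := {b, c})
    (subset_insert _ _) (by rintro _ (rfl | rfl) <;> simp)
    (by rintro z ⟨h1, rfl | rfl⟩; · rfl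
        · exact absurd (h.cl h1) hc) e y4)
  have x5 : x ∉ N.closure {b, c} := fun e => x3 (meet hI (X := {a, b}) (Y := {b, c})
    (subset_insert _ _) (by rintro _ (rfl | rfl) <;> simp)
    (by rintro z ⟨h1, rfl | rfl⟩; · rfl
        · exact absurd (h.cl h1) hc) x4 e)
  have xy : y ∉ N.closure {x} := fun e => y5 (tr1 e x4)
  have hz : (t * s) • v a + (-1 : K) • v c ≠ 0 := by
    intro e
    refine hac (h.cl (h.inj c a ⟨t * s, mul_ne_zero ht hs, ?_⟩))
    linear_combination (norm := module) -e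
  obtain ⟨z, hz1⟩ := h.sur _ hz
  have z1 := h.line (R.rfl' a) (R.rfl' c) hz1 _ _ rfl hac
  have z2 := h.line x1 y1 hz1 t (-1) (by module) xy
  refine h.third hac z1 (fun e => ?_) (fun e => ?_)
  · have a1 : a ∈ N.closure (insert y {x}) := by rw [pair_comm]; exact tr1 (h.par e) z2
    have a2 := mem_closure_insert (fun e => x2 (h.par e)) a1
    exact y5 (tr2 a2 (h.cl (by simp)) x4)
  · have a1 : c ∈ N.closure (insert x {y}) := tr1 (h.par e) z2
    have a2 := mem_closure_insert (fun e => y3 (h.par e)) a1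
    exact x5 (tr2 a2 (h.cl (by simp)) y4)

lemma Wk.simple [Finite K] (h : Wk (K := K) v N) (hr : 3 ≤ Module.finrank K V)
    (hH : ∀ a b, HH N a b) {p q : α} (hq : q ∈ N.closure {p}) : p = q := by
  by_contra hne
  obtain ⟨J, hJ, hp, -⟩ := h.refl p
  obtain ⟨s, σ, s1, s2⟩ := h.cut hJ hne
  have ps : s ∉ N.closure {p} := fun e => hp (tr1 (h.par e) s2)
  obtain ⟨t, ht⟩ : ∃ t, t ∉ N.closure {p, s} := by
    by_contra hn
    push Not at hn
    obtain ⟨B, hB, hs⟩ := (h.two ps).exists_isBase_superset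
    have hB2 : B ⊆ {p, s} := fun x hx => by
      by_contra h3
      exact hB.indep.notMem_closure_sdiff_of_mem hx (N.closure_subset_closure
        (subset_sdiff_singleton hs h3) (hn x))
    have h4 : span K ({v p, v s} : Set V) = ⊤ := by
      rw [eq_top_iff, ← (h.w B hB).2, ← image_pair]; exact span_mono (image_mono hB2)
    classical
    have h5 := finrank_span_finset_le_card (R := K) ({v p, v s} : Finset V)
    rw [Set.finrank, Finset.coe_pair, h4, finrank_top] at h5
    have := Finset.card_le_two (a := v p) (b := v s)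
    omega
  have hI : N.Indep (insert t {p, s}) := h.ins (h.two ps) ht
  have pt : t ∉ N.closure {p} := fun e => ht (tr1 e (h.cl (by simp)))
  have st : t ∉ N.closure {s} := fun e => ht (tr1 e (h.cl (by simp)))
  have m1 : ∀ x, x ∈ N.closure {p, t} → x ∈ N.closure {s, t} → x ∈ N.closure {t} := fun x =>
    meet hI (by rintro _ (rfl | rfl) <;> simp) (by rintro _ (rfl | rfl) <;> simp) (by
      rintro z ⟨rfl | rfl, h2⟩
      · rcases h2 with rfl | rfl
        · exact absurd (h.cl (mem_singleton _)) ps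
        · rfl
      · rfl)
  have m2 : ∀ x, x ∈ N.closure {p, t} → x ∈ N.closure {p, s} → x ∈ N.closure {p} := fun x =>
    meet hI (by rintro _ (rfl | rfl) <;> simp) (by rintro _ (rfl | rfl) <;> simp) (by
      rintro z ⟨rfl | rfl, h2⟩
      · rfl
      · exact absurd (h.cl h2) ht)
  obtain ⟨u, a, ha, u1, u2, -⟩ := h.th (hH p t) pt
  obtain ⟨c, b, hb, c1, -, c3⟩ := h.th (hH s t) st
  set e1 := a • v p
  set e2 := (-b) • v s
  set e3 := v t
  have r1 : R (K := K) v p e1 := (R.rfl' p).smul ha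
  have r2 : R (K := K) v s e2 := (R.rfl' s).smul (neg_ne_zero.2 hb)
  have r3 : R (K := K) v t e3 := R.rfl' t
  have c4 := h.line r2 r3 c1 (-1) 1 (by simp [e2]) st
  have c5 : c ∉ N.closure {p, t} := fun e => c3 (m1 c e c4)
  have u4 := h.line r1 r3 u1 1 1 (by simp) pt
  have nz : ∀ (A B : α) (w z : V), R (K := K) v A w → R (K := K) v B z → B ∉ N.closure {A} →
      ∀ y : K, w + y • z ≠ 0 := by
    intro A B w z hA hB hn y e
    have e' : w = (-y) • z := by linear_combination (norm := module) e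
    by_cases hy : y = 0
    · obtain ⟨d, -, hd⟩ := hA
      exact h.nz A (by rw [hd, e', hy]; simp)
    · exact hn (h.cl (R.eq h.toGeo (hB.smul (neg_ne_zero.2 hy)) (e' ▸ hA)))
  let m : K → Prop := fun y => ∀ X, R (K := K) v X (e1 + y • e2) → X ∈ N.closure {p}
  have mul : ∀ x y, m x → m y → m (x * y) := by
    intro x y hx hy W hW
    obtain ⟨X, hX⟩ := h.sur _ (nz p s e1 e2 r1 r2 ps x)
    obtain ⟨Y, hY⟩ := h.sur _ (nz p s e1 e2 r1 r2 ps y)
    obtain ⟨Z, hZ⟩ := h.sur _ (nz p t e1 e3 r1 r3 pt y)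
    obtain ⟨C, hC⟩ := h.sur _ (nz t s e3 e2 r3 r2 (fun e => st (h.par e)) (-x))
    have X1 := hx X hX
    have Y1 := hy Y hY
    have C1 := h.line hX u1 hC (-1) 1 (by module) fun e => u2 (tr1 e X1)
    have C2 := m1 C (tr2 C1 (tr1 X1 (h.cl (by simp))) u4) (h.line r2 r3 hC (-x) 1 (by module) st)
    have pc : c ∉ N.closure {p} := fun e => c5 (tr1 e (h.cl (by simp)))
    have Z1 := h.line hY c1 hZ 1 y (by simp only [e2]; module) fun e => pc (tr1 e Y1)
    have Z2 := h.line r1 r3 hZ 1 y (by module) pt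
    have Z3 : Z ∈ N.closure {p} :=
      meet (h.ins (h.two pt) c5) (X := {p, c}) (Y := {p, t}) (by rintro _ (rfl | rfl) <;> simp)
        (subset_insert _ _) (by
          rintro z ⟨rfl | rfl, h2⟩
          · rfl
          · exact absurd (h.cl h2) c5)
        (tr2 Z1 (tr1 Y1 (h.cl (by simp))) (h.cl (by simp))) Z2
    have W1 := h.line hZ hC hW 1 (-y) (by module) fun e => pt (tr1 (h.par C2) (tr1 e Z3))
    exact m2 W (tr2 W1 Z2 (tr1 C2 (h.cl (by simp)))) (h.line r1 r2 hW 1 (x * y) (by module) ps)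
  have n1 : ¬ m 1 := by
    intro h1
    obtain ⟨X, hX⟩ := h.sur _ (nz p s e1 e2 r1 r2 ps 1)
    have X1 := h1 X hX
    have := h.line hX u1 c1 (-1) 1 (by simp only [e2]; module) fun e => u2 (tr1 e X1)
    exact c5 (tr2 this (tr1 X1 (h.cl (by simp))) u4)
  obtain ⟨d, hd, s3⟩ := s1
  have hσ : σ ≠ 0 := by
    rintro rfl
    exact ps ((h.inj s q ⟨d, hd, by simpa using s3⟩) ▸ hq)
  set x : K := a / (σ * b * d)
  have hx0 : x ≠ 0 := div_ne_zero ha (mul_ne_zero (mul_ne_zero hσ hb) hd)
  have mx : m x := by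
    intro X hX
    have : e1 + x • e2 = (-(a / σ)) • v q := by
      simp only [e1, e2, s3, x]
      match_scalars <;> field_simp <;> ring
    rw [this] at hX
    rw [R.eq h.toGeo hX ((R.rfl' q).smul (neg_ne_zero.2 (div_ne_zero ha hσ)))]; exact hq
  have pw : ∀ k : ℕ, m (x ^ (k + 1)) := by
    intro k
    induction k with
    | zero => simpa using mx
    | succ k ih => rw [pow_succ]; exact mul _ _ ih mx
  have := Fintype.ofFinite K
  have h2 := FiniteField.pow_card_sub_one_eq_one x hx0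
  have h3 := Fintype.one_lt_card (α := K)
  have h4 := pw (Fintype.card K - 2)
  rw [show Fintype.card K - 2 + 1 = Fintype.card K - 1 by omega, h2] at h4
  exact n1 h4

lemma Wk.cl_sp (h : Wk (K := K) v N) (hs : ∀ p q, q ∈ N.closure {p} → p = q) {I : Set α}
    (hI : N.Indep I) {q : α} (hq : q ∈ N.closure I) : v q ∈ span K (v '' I) := by
  obtain ⟨B, hB, hIB⟩ := hI.exists_isBase_superset
  have hm : ∀ x, x ∈ N.closure I → x ∉ N.closure (B \ I) := fun x h1 h2 =>
    h.nl x (meet hB.indep hIB sdiff_subset (by simp) h1 h2)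
  have hD := hB.indep.subset (sdiff_subset (t := I))
  have h1 : v q ∈ span K (v '' I) ⊔ span K (v '' (B \ I)) := by
    rw [← span_union, ← image_union, union_sdiff_cancel hIB, (h.w B hB).2]; trivial
  obtain ⟨i, hi, d, hd, e⟩ := mem_sup.1 h1
  by_cases d0 : d = 0
  · rw [← e, d0, add_zero]; exact hi
  by_cases i0 : i = 0
  · exact absurd (h.cl' hD (R.rfl' q) (by rw [← e, i0, zero_add]; exact hd)) (hm q hq)
  obtain ⟨x, hx⟩ := h.sur i i0
  obtain ⟨δ, hδ⟩ := h.sur d d0
  by_cases hxq : q ∈ N.closure {x}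
  · rw [← hs x q hxq]; exact hx.mem.2 hi
  · have := h.line hx (R.rfl' q) hδ (-1) 1 (by rw [← e]; module) hxq
    exact absurd (h.cl' hD hδ hd) (hm δ (tr2 this (h.cl' hI hx hi) hq))

lemma Wk.all [Finite α] (h : Wk (K := K) v N) (hs : ∀ p q, q ∈ N.closure {p} → p = q) {B : Set α}
    (hB : Bas (K := K) v B) : N.IsBase B := by
  have h1 : ∀ T : Set α, T.Finite → T ⊆ B → N.Indep T := by
    intro T hT
    induction T, hT using Set.Finite.induction_on with
    | empty => intro _; exact N.empty_indep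
    | @insert a T ha _ ih =>
      intro h2
      have h3 := ih ((subset_insert _ _).trans h2)
      exact h.ins h3 fun e => (hB.1.mono h2).notMem_span_of_insert ha (h.cl_sp hs h3 e)
  have h2 := h1 B (toFinite B) Subset.rfl
  refine h2.isBase_of_maximal fun J hJ hBJ => hBJ.antisymm fun x hx => ?_
  by_contra hn
  have h3 := h.cl' h2 (R.rfl' x) (by rw [hB.2]; trivial)
  exact hJ.notMem_closure_sdiff_of_mem hx
    (N.closure_subset_closure (subset_sdiff_singleton hBJ hn) h3)

variable [Fintype α]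

noncomputable def ev (B : Set α) : α → ℝ := B.indicator 1

noncomputable def fS (S : Set α) : (α → ℝ) →ₗ[ℝ] ℝ where
  toFun x := ∑ i, ev S i * x i
  map_add' x y := by simp [mul_add, Finset.sum_add_distrib]
  map_smul' c x := by simp [Finset.mul_sum, mul_left_comm]

lemma fS_ins (S J : Set α) {a : α} (ha : a ∉ J) :
    fS S (ev (insert a J)) = fS S (ev J) + ev S a := by
  classical
  have : ev (insert a J) = ev J + Pi.single a 1 := by
    ext i
    by_cases h : i = a
    · subst h; simp [ev, ha]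
    · simp [ev, indicator, h]
  rw [this, map_add]
  simp [fS, Pi.single_apply]

lemma const (N : Matroid α) (S : Set α)
    (h : ∀ a b J, a ∉ J → b ∉ J → N.IsBase (insert a J) → N.IsBase (insert b J) → ev S a = ev S b)
    {B B' : Set α} (hB : N.IsBase B) (hB' : N.IsBase B') : fS S (ev B) = fS S (ev B') := by
  induction hn : (B \ B').ncard generalizing B with
  | zero =>
    rw [ncard_eq_zero, sdiff_eq_empty] at hn
    rw [hB.eq_of_subset_isBase hB' hn]
  | succ n ih =>
    obtain ⟨e, he⟩ := nonempty_of_ncard_ne_zero (by omega : (B \ B').ncard ≠ 0)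
    obtain ⟨f, hf, h1⟩ := hB.exchange hB' he
    have e1 : insert e (B \ {e}) = B := by simp [he.1]
    rw [← ih h1]
    · rw [fS_ins S _ (fun h => hf.2 h.1), ← h e f (B \ {e}) (by simp) (fun h => hf.2 h.1)
        (by rwa [e1]) h1, ← fS_ins S _ (by simp), e1]
    · have : insert f (B \ {e}) \ B' = (B \ B') \ {e} := by
        ext y; simp only [mem_sdiff, mem_insert_iff, mem_singleton_iff]
        constructor
        · rintro ⟨rfl | h, h'⟩
          · exact absurd hf.1 h'
          · tauto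
        · tauto
      rw [this, ncard_sdiff_singleton_of_mem he, hn]; rfl

lemma dich [Finite K] (G : Geo (K := K) v) (hr : 3 ≤ Module.finrank K V) (N : Matroid α)
    (hE : N.E = univ) (hw : ∀ B, N.IsBase B → Bas (K := K) v B) :
    (∀ B, Bas (K := K) v B → N.IsBase B) ∨ ∃ S : Set α, ∃ a ∈ S, ∃ b ∉ S, ∃ k : ℝ,
      ∀ B, N.IsBase B → fS S (ev B) = k := by
  obtain ⟨B0, hB0⟩ := N.exists_isBase
  by_cases hl : ∀ x, x ∉ N.closure ∅
  swap
  · push Not at hl
    obtain ⟨x, hx⟩ := hl
    have hx' : ∀ B, N.IsBase B → x ∉ B := fun B hB h =>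
      hB.indep.notMem_closure_sdiff_of_mem h (N.closure_subset_closure (empty_subset _) hx)
    obtain ⟨b, hb⟩ : B0.Nonempty := by
      by_contra hn
      rw [not_nonempty_iff_eq_empty] at hn
      have := (hw B0 hB0).2
      rw [hn, image_empty, span_empty] at this
      have h2 := finrank_top K V
      rw [← this, finrank_bot] at h2; omega
    refine Or.inr ⟨{x}, x, rfl, b, fun e => hx' B0 hB0 (e ▸ hb), _, fun B hB =>
      const N _ (fun a b J _ _ h1 h2 => ?_) hB hB0⟩
    have ha : a ≠ x := fun e => hx' _ h1 (by simp [e])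
    have hb : b ≠ x := fun e => hx' _ h2 (by simp [e])
    simp [ev, ha, hb]
  have h : Wk (K := K) v N := { g := hE, nl := hl, toGeo := G, w := hw }
  by_cases hH : ∀ a b, HH N a b
  · exact Or.inl fun B => h.all fun p q => h.simple hr hH
  push Not at hH
  obtain ⟨a, b, hab⟩ := hH
  refine Or.inr ⟨{x | HH N a x}, a, h.refl a, b, hab, _, fun B hB =>
    const N _ (fun x y J hx hy h1 h2 => ?_) hB hB0⟩
  have k : HH N x y := ⟨J, h1, by simpa [hx] using h1.indep.notMem_closure_sdiff_of_mem (mem_insert x J),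
    by simpa [hy] using h2.indep.notMem_closure_sdiff_of_mem (mem_insert y J)⟩
  have : HH N a x ↔ HH N a y := ⟨fun e => h.trans e k, fun e => h.trans e (h.symm k)⟩
  by_cases e : HH N a x
  · simp [ev, e, this.1 e]
  · simp [ev, e, mt this.2 e]

lemma swap (G : Geo (K := K) v) {a b : α} (hab : a ≠ b) :
    ∃ J, a ∉ J ∧ b ∉ J ∧ Bas (K := K) v (insert a J) ∧ Bas (K := K) v (insert b J) := by
  obtain ⟨φ, h1, h2⟩ : ∃ φ : V →ₗ[K] K, φ (v a) = 1 ∧ φ (v b) = 1 := by
    have h3 : v a ∉ span K {v a - v b} := by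
      rw [mem_span_singleton]
      rintro ⟨c, hc⟩
      by_cases c0 : c = 0
      · exact G.nz a (by rw [← hc, c0, zero_smul])
      have e : v b = ((c - 1) / c) • v a := by
        have : c • v b = (c - 1) • v a := by linear_combination (norm := module) -hc
        rw [div_eq_inv_mul, mul_smul, ← this, inv_smul_smul₀ c0]
      refine hab (G.inj b a ⟨_, fun e0 => G.nz b (by rw [e, e0, zero_smul]), e⟩).symm
    obtain ⟨f, f1, f2⟩ := (span K {v a - v b}).exists_dual_map_eq_bot_of_notMem h3 inferInstance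
    have f3 : f (v a - v b) = 0 := by
      have : f (v a - v b) ∈ (span K {v a - v b}).map f := mem_map_of_mem (mem_span_singleton_self _)
      rwa [f2, mem_bot] at this
    rw [map_sub, sub_eq_zero] at f3
    exact ⟨(f (v a))⁻¹ • f, by simp [f1], by simp [← f3, f1]⟩
  obtain ⟨J, hJ, -, h3, h4⟩ := exists_linearIndepOn_extension (K := K) (v := v) (s := ∅)
    (t := {x | φ (v x) = 0}) (linearIndepOn_empty K v) (empty_subset _)
  have h5 : span K (v '' J) ≤ LinearMap.ker φ := span_le.2 (by rintro _ ⟨x, hx, rfl⟩; exact hJ hx)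
  have key : ∀ c, φ (v c) = 1 → c ∉ J ∧ Bas (K := K) v (insert c J) := by
    intro c hc
    refine ⟨fun e => by simpa [hc] using hJ e, h4.insert fun e => by simpa [hc] using h5 e, ?_⟩
    rw [eq_top_iff, image_insert_eq]
    intro w _
    refine mem_span_insert.2 ⟨φ w, w - φ w • v c, ?_, by module⟩
    by_cases h0 : w - φ w • v c = 0
    · rw [h0]; exact zero_mem _
    obtain ⟨x, hx⟩ := G.sur _ h0
    refine hx.mem.1 (h3 (mem_image_of_mem _ ?_))
    have : w - φ w • v c ∈ LinearMap.ker φ := by simp [hc]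
    exact hx.mem.2 this
  exact ⟨J, (key a h1).1, (key b h2).1, (key a h1).2, (key b h2).2⟩

lemma avoid {E ι : Type} [AddCommGroup E] [Module ℝ E] {C : Set E} (hC : Convex ℝ C)
    (hne : C.Nonempty) (f : ι → E →ₗ[ℝ] ℝ) (k : ι → ℝ) (T : Set ι) (hT : T.Finite)
    (h : ∀ i ∈ T, ∃ y ∈ C, f i y ≠ k i) : ∃ x ∈ C, ∀ i ∈ T, f i x ≠ k i := by
  induction T, hT using Set.Finite.induction_on with
  | empty => obtain ⟨x, hx⟩ := hne; exact ⟨x, hx, by simp⟩
  | @insert j T _ hT ih =>
    obtain ⟨x, hx, h1⟩ := ih fun i hi => h i (mem_insert_of_mem _ hi)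
    obtain ⟨y, hy, h2⟩ := h j (mem_insert _ _)
    have fin : ∀ i ∈ insert j T, {t : ℝ | f i (x + t • (y - x)) = k i}.Finite := by
      intro i hi
      refine Set.Subsingleton.finite fun s hs t ht => ?_
      simp only [mem_ofPred_eq, map_add, map_smul, map_sub, smul_eq_mul] at hs ht
      by_contra hst
      have e : f i y - f i x = 0 := by
        apply mul_left_cancel₀ (sub_ne_zero.2 hst); linarith
      rw [e] at hs
      rcases hi with rfl | hi
      · exact h2 (by linarith)
      · exact h1 i hi (by linarith)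
    obtain ⟨t, ht, h3⟩ := (Icc_infinite (zero_lt_one' ℝ)).exists_notMem_finite
      ((hT.insert j).biUnion fin)
    exact ⟨_, hC.add_smul_sub_mem hx hy ht, fun i hi e => h3 (mem_biUnion hi e)⟩

theorem main [Finite K] (G : Geo (K := K) v) (hr : 3 ≤ Module.finrank K V) (C : Set (Matroid α))
    (hC : C.Finite) (hE : ∀ N ∈ C, N.E = univ) (hw : ∀ N ∈ C, ∀ B, N.IsBase B → Bas (K := K) v B)
    (hc : ⋃ N ∈ C, convexHull ℝ (ev '' {B | N.IsBase B}) =
      convexHull ℝ (ev '' {B | Bas (K := K) v B})) :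
    ∃ N ∈ C, ∀ B, N.IsBase B ↔ Bas (K := K) v B := by
  by_contra hn
  have h1 : ∀ N ∈ C, ∃ S : Set α, ∃ a ∈ S, ∃ b ∉ S, ∃ k : ℝ,
      ∀ B, N.IsBase B → fS S (ev B) = k := fun N hN =>
    (dich G hr N (hE N hN) (hw N hN)).resolve_left fun h => hn ⟨N, hN, fun B => ⟨hw N hN B, h B⟩⟩
  choose! S a ha b hb k hk using h1
  have hne : (convexHull ℝ (ev '' {B | Bas (K := K) v B})).Nonempty := by
    obtain ⟨J, -, -, h3, h4⟩ := exists_linearIndepOn_extension (K := K) (v := v) (s := ∅)
      (t := univ) (linearIndepOn_empty K v) (empty_subset _)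
    refine ⟨_, subset_convexHull ℝ _ (mem_image_of_mem _ (show J ∈ _ from ⟨h4, ?_⟩))⟩
    rw [eq_top_iff]
    intro w _
    by_cases h0 : w = 0
    · rw [h0]; exact zero_mem _
    obtain ⟨x, hx⟩ := G.sur _ h0
    exact hx.mem.1 (h3 (mem_image_of_mem _ (mem_univ _)))
  obtain ⟨x, hx, h2⟩ := avoid (convex_convexHull ℝ _) hne (fun N => fS (S N)) k C hC fun N hN => by
    obtain ⟨J, j1, j2, j3, j4⟩ := swap G (a := a N hN) (b := b N hN) fun e => hb N hN (e ▸ ha N hN)
    by_contra h3
    push Not at h3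
    have e1 := h3 _ (subset_convexHull ℝ _ (mem_image_of_mem _ j3))
    have e2 := h3 _ (subset_convexHull ℝ _ (mem_image_of_mem _ j4))
    rw [fS_ins _ _ j1] at e1
    rw [fS_ins _ _ j2] at e2
    simp only [ev, indicator_of_mem (ha N hN), indicator_of_notMem (hb N hN), Pi.one_apply] at e1 e2
    linarith
  rw [← hc] at hx
  obtain ⟨N, hN, hx⟩ := mem_iUnion₂.1 hx
  refine h2 N hN (convexHull_min (t := {x | fS (S N) x = k N}) ?_
    (convex_hyperplane (fS (S N)).isLinear _) hx)
  rintro _ ⟨B, hB, rfl⟩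
  exact hk N hN B hB

end Pool.Agent.H.MP_da28a5_co
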